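import Pool.Agent.H98.SZ.Sld
import Pool.Agent.H82.SZ.Asm

/-!
# GL: from the limits of `PRIN` (block M) to `MLim` (limits of `Prj`)

The tail `n > N₀ k` is negligible, the sum over `k` is finite since `P` is `0` from `θ ≤ 1` on.
-/

set_option autoImplicit false

open Finset Filter Topology
open scoped ArithmeticFunction.vonMangoldt ArithmeticFunction.Moebius ArithmeticFunction.zeta

namespace H69SZ

theorem om_eq (T : ℝ) : H98.SZ.om T = H82SZ.om T := by
  unfold H98.SZ.om H82SZ.om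
  rw [div_div, mul_comm (Real.sqrt (Real.log T))]

theorem win_eq {T : ℝ} (hT : 1 < T) (r : ℝ) : H98.SZ.win T r = H82SZ.wt T r := by
  have hL : 0 < Real.log T := Real.log_pos hT
  have hT0 : T ≠ 0 := by positivity
  have hs : Real.sqrt (Real.log T) ^ 2 = Real.log T := Real.sq_sqrt hL.le
  unfold H98.SZ.win H82SZ.wt
  congr 1
  rw [neg_inj]
  have hs0 : Real.sqrt (Real.log T) ≠ 0 := (Real.sqrt_pos.2 hL).ne'
  rw [div_pow, div_pow, hs]
  field_simp

/-- the window is tiny for `r ≥ 10 T` -/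
theorem wt_tail {T r : ℝ} (hT : 3 ≤ T) (hr : 10 * T ≤ r) : T ^ 13 * r ^ 14 * H82SZ.wt T r ≤ 1 := by
  have hT0 : 0 < T := by linarith
  have hL : 1 ≤ Real.log T := by
    rw [Real.le_log_iff_exp_le hT0]
    have := Real.exp_one_lt_d9
    linarith
  obtain ⟨u, hu⟩ : ∃ u, r = T * u := ⟨r / T, by field_simp⟩
  have hu10 : 10 ≤ u := by
    rw [hu] at hr
    nlinarith
  obtain ⟨L, hLe⟩ : ∃ L, L = Real.log T := ⟨_, rfl⟩
  have hTe : T = Real.exp L := by rw [hLe, Real.exp_log hT0]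
  have hpi := Real.pi_gt_d2
  have h1 : H82SZ.wt T r ≤ Real.exp (-(360 * u * L)) := by
    unfold H82SZ.wt
    rw [Real.exp_le_exp, neg_le_neg_iff, ← hLe]
    have e : (T - 2 * Real.pi * r) ^ 2 * L / T ^ 2 = (1 - 2 * Real.pi * u) ^ 2 * L := by
      rw [hu]
      field_simp
    rw [e]
    have h2 : 360 * u ≤ (1 - 2 * Real.pi * u) ^ 2 := by
      have h3 : 6.28 * u ≤ 2 * Real.pi * u := by
        have : 6.28 ≤ 2 * Real.pi := by linarith
        exact mul_le_mul_of_nonneg_right this (by linarith)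
      have h4 : 6.1 * u ≤ 2 * Real.pi * u - 1 := by linarith
      have h5 : (6.1 * u) ^ 2 ≤ (2 * Real.pi * u - 1) ^ 2 := by
        apply pow_le_pow_left₀ (by linarith) h4
      have h6 : 10 * u ≤ u ^ 2 := by nlinarith
      calc 360 * u ≤ (6.1 * u) ^ 2 := by rw [mul_pow]; linarith
        _ ≤ (2 * Real.pi * u - 1) ^ 2 := h5
        _ = (1 - 2 * Real.pi * u) ^ 2 := by ring
    have hL0 : 0 ≤ L := by rw [hLe]; linarith
    nlinarith
  have h2 : u ≤ Real.exp u := by linarith [Real.add_one_le_exp u]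
  rw [← hLe] at hL
  calc T ^ 13 * r ^ 14 * H82SZ.wt T r ≤ T ^ 13 * r ^ 14 * Real.exp (-(360 * u * L)) := by gcongr
    _ = T ^ 27 * u ^ 14 * Real.exp (-(360 * u * L)) := by rw [hu]; ring
    _ ≤ (Real.exp L) ^ 27 * (Real.exp u) ^ 14 * Real.exp (-(360 * u * L)) := by
        rw [← hTe]
        gcongr
    _ = Real.exp (27 * L + 14 * u - 360 * u * L) := by
        rw [← Real.exp_nat_mul, ← Real.exp_nat_mul, ← Real.exp_add, ← Real.exp_add]
        norm_num
        ring_nf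
    _ ≤ 1 := by
        rw [Real.exp_le_one_iff]
        nlinarith

theorem abs_rho_le (k n : ℕ) :
    |(ArithmeticFunction.moebius (k / Nat.gcd k n) : ℝ) / (Nat.totient (k / Nat.gcd k n) : ℝ)| ≤ 1 := by
  rcases Nat.eq_zero_or_pos (k / Nat.gcd k n) with h | h
  · rw [h]; simp
  · have h1 : (1 : ℝ) ≤ (Nat.totient (k / Nat.gcd k n) : ℝ) := by exact_mod_cast Nat.totient_pos.2 h
    have h2 : |(ArithmeticFunction.moebius (k / Nat.gcd k n) : ℝ)| ≤ 1 := by
      rw [← Int.cast_abs]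
      exact_mod_cast ArithmeticFunction.abs_moebius_le_one
    rw [abs_div, abs_of_pos (by linarith : (0 : ℝ) < (Nat.totient (k / Nat.gcd k n) : ℝ)), div_le_one (by linarith)]
    linarith

/-- the term of the inner sum -/
noncomputable def tm (T : ℝ) (j : ℕ) (c : ArithmeticFunction ℝ) (k n : ℕ) : ℝ :=
  c n * (H82SZ.wt T (n / k) * Real.log (n / k) ^ j) *
    ((ArithmeticFunction.moebius (k / Nat.gcd k n) : ℝ) / (Nat.totient (k / Nat.gcd k n) : ℝ))

/-- a term of the tail -/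
theorem tm_tail {T : ℝ} (hT : 3 ≤ T) {j : ℕ} (hj : j ≤ 2) {c : ArithmeticFunction ℝ} {B : ℝ} (hB : 0 ≤ B)
    (hc : ∀ n : ℕ, |c n| ≤ B * (n : ℝ) ^ 10) {k n : ℕ} (hk : 1 ≤ k) (hkT : (k : ℝ) ≤ T) (hn : H82SZ.N0 T * k < n) :
    |tm T j c k n| ≤ B / T * (1 / (n : ℝ) ^ 2) := by
  have hT0 : 0 < T := by linarith
  have hk0 : (0 : ℝ) < k := by exact_mod_cast hk
  have hk1 : (1 : ℝ) ≤ k := by exact_mod_cast hk
  have hn1 : 1 ≤ n := by omega
  have hn0 : (0 : ℝ) < n := by exact_mod_cast hn1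
  obtain ⟨r, hr⟩ : ∃ r, r = (n : ℝ) / k := ⟨_, rfl⟩
  have hnr : (n : ℝ) = k * r := by rw [hr]; field_simp
  have h10 : 10 * T ≤ r := by
    have h1 : 10 * T ≤ (H82SZ.N0 T : ℝ) := Nat.le_ceil _
    have h2 : (H82SZ.N0 T : ℝ) * k ≤ n := by exact_mod_cast hn.le
    rw [hr, le_div_iff₀ hk0]
    nlinarith
  have hr1 : 1 ≤ r := by linarith
  have hlog0 : 0 ≤ Real.log r := Real.log_nonneg hr1
  have hlog : Real.log r ≤ r := (Real.log_le_sub_one_of_pos (by linarith)).trans (by linarith)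
  have hw := wt_tail hT h10
  have hwp : 0 < H82SZ.wt T r := Real.exp_pos _
  have hlj : Real.log r ^ j ≤ r ^ 2 := by
    calc Real.log r ^ j ≤ r ^ j := pow_le_pow_left₀ hlog0 hlog j
      _ ≤ r ^ 2 := pow_le_pow_right₀ hr1 hj
  unfold tm
  rw [← hr, abs_mul, abs_mul, abs_mul, abs_of_pos hwp, abs_of_nonneg (pow_nonneg hlog0 j)]
  have hrho := abs_rho_le k n
  have key : (n : ℝ) ^ 10 * (H82SZ.wt T r * r ^ 2) ≤ 1 / T * (1 / (n : ℝ) ^ 2) := by
    rw [div_mul_div_comm, one_mul, le_div_iff₀ (by positivity)]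
    have h3 : (n : ℝ) ^ 12 ≤ T ^ 12 * r ^ 12 := by
      rw [hnr, mul_pow]
      gcongr
    calc (n : ℝ) ^ 10 * (H82SZ.wt T r * r ^ 2) * (T * (n : ℝ) ^ 2) = (n : ℝ) ^ 12 * (T * r ^ 2 * H82SZ.wt T r) := by ring
      _ ≤ (T ^ 12 * r ^ 12) * (T * r ^ 2 * H82SZ.wt T r) := by gcongr
      _ = T ^ 13 * r ^ 14 * H82SZ.wt T r := by ring
      _ ≤ 1 := hw
  calc |c n| * (H82SZ.wt T r * Real.log r ^ j) *
        |(ArithmeticFunction.moebius (k / Nat.gcd k n) : ℝ) / (Nat.totient (k / Nat.gcd k n) : ℝ)|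
      ≤ (B * (n : ℝ) ^ 10) * (H82SZ.wt T r * r ^ 2) * 1 := by
        have := hc n
        gcongr
    _ = B * ((n : ℝ) ^ 10 * (H82SZ.wt T r * r ^ 2)) := by ring
    _ ≤ B * (1 / T * (1 / (n : ℝ) ^ 2)) := by gcongr
    _ = _ := by ring

/-- the constant `∑ 1/n²` -/
noncomputable def z2 : ℝ := ∑' i : ℕ, 1 / ((i : ℝ) + 1) ^ 2

theorem sum_z2 : Summable fun i : ℕ => 1 / ((i : ℝ) + 1) ^ 2 := by
  have h := (summable_nat_add_iff 1).2 (Real.summable_one_div_nat_pow.2 (by norm_num : 1 < 2))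
  simpa using h

theorem z2_nonneg : 0 ≤ z2 := tsum_nonneg fun i => by positivity

/-- the inner sum -/
theorem inner_eq {T : ℝ} (hT : 3 ≤ T) {j : ℕ} (hj : j ≤ 2) {c : ArithmeticFunction ℝ} {B : ℝ} (hB : 0 ≤ B)
    (hc : ∀ n : ℕ, |c n| ≤ B * (n : ℝ) ^ 10) {k : ℕ} (hk : 1 ≤ k) (hkT : (k : ℝ) ≤ T) :
    |(∑' n : ℕ, tm T j c k n) - ∑ n ∈ Icc 1 (H82SZ.N0 T * k), tm T j c k n| ≤ B / T * z2 := by
  have hT0 : 0 < T := by linarith
  set M := H82SZ.N0 T * k + 1 with hM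
  have hb : ∀ i : ℕ, |tm T j c k (i + M)| ≤ B / T * (1 / ((i : ℝ) + 1) ^ 2) := by
    intro i
    refine (tm_tail hT hj hB hc hk hkT (by omega)).trans ?_
    have h1 : ((i : ℝ) + 1) ≤ ((i + M : ℕ) : ℝ) := by
      have : (1 : ℝ) ≤ (M : ℝ) := by exact_mod_cast (by omega : 1 ≤ M)
      push_cast
      linarith
    have h2 : 0 < (i : ℝ) + 1 := by positivity
    gcongr
  have hs1 : Summable fun i : ℕ => tm T j c k (i + M) :=
    Summable.of_norm_bounded (sum_z2.mul_left (B / T)) (fun i => hb i)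
  have hs : Summable fun n : ℕ => tm T j c k n := (summable_nat_add_iff M).1 hs1
  have h1 := hs.sum_add_tsum_nat_add M
  have h2 : ∑ n ∈ range M, tm T j c k n = ∑ n ∈ Icc 1 (H82SZ.N0 T * k), tm T j c k n := by
    rw [hM, Finset.sum_range_succ']
    have h0 : tm T j c k 0 = 0 := by unfold tm; simp
    rw [h0, add_zero]
    rw [Finset.range_eq_Ico, Finset.sum_Ico_add' (fun n => tm T j c k n) 0 (H82SZ.N0 T * k) 1]
    congr 1
  rw [← h1, h2, add_sub_cancel_left]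
  calc |∑' i : ℕ, tm T j c k (i + M)| ≤ ∑' i : ℕ, |tm T j c k (i + M)| := by
        have := norm_tsum_le_tsum_norm (f := fun i : ℕ => tm T j c k (i + M)) hs1.norm
        simpa [Real.norm_eq_abs] using this
    _ ≤ ∑' i : ℕ, B / T * (1 / ((i : ℝ) + 1) ^ 2) := hs1.abs.tsum_le_tsum hb (sum_z2.mul_left _)
    _ = B / T * z2 := by rw [tsum_mul_left]; rfl

theorem Adm.bdd {θ : ℝ} {P : ℝ → ℝ} (hP : H82SZ.Adm θ P) : ∃ X : ℝ, 1 ≤ X ∧ ∀ v, |P v| ≤ X := by
  obtain ⟨X, hX⟩ := hP.cpt.exists_bound_of_continuous hP.smooth.continuous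
  exact ⟨max X 1, le_max_right _ _, fun v => (hX v).trans (le_max_left _ _)⟩

/-- the principal parts of the two blocks agree up to `O(1)` -/
theorem prin_eq {θ : ℝ} (hθ : θ ≤ 1) {P : ℝ → ℝ} (hP : H82SZ.Adm θ P) {X : ℝ} (hX : ∀ v, |P v| ≤ X)
    {T : ℝ} (hT : 3 ≤ T) {j : ℕ} (hj : j ≤ 2) {c : ArithmeticFunction ℝ} {B : ℝ} (hB : 0 ≤ B)
    (hc : ∀ n : ℕ, |c n| ≤ B * (n : ℝ) ^ 10) :
    |(H98.SZ.PRIN (H98.SZ.xx (fun u => (P u : ℂ)) (Real.log T)) (fun n => ((c n : ℝ) : ℂ)) (H98.SZ.wj j T)).re -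
      H82SZ.Prj P T j c| ≤ X * (B * z2) := by
  have hT0 : 0 < T := by linarith
  have hL : 0 < Real.log T := Real.log_pos (by linarith)
  have hX0 : 0 ≤ X := (abs_nonneg _).trans (hX 0)
  -- the inner sums are real
  have h1 : ∀ k : ℕ, 1 ≤ k → ∑' n : ℕ, ((c n : ℝ) : ℂ) * (H98.SZ.rho k n : ℂ) * H98.SZ.wj j T ((n : ℝ) / (k : ℝ)) =
      ((∑' n : ℕ, tm T j c k n : ℝ) : ℂ) := by
    intro k hk
    rw [Complex.ofReal_tsum]
    refine tsum_congr fun n => ?_
    rcases Nat.eq_zero_or_pos n with hn | hn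
    · subst hn
      unfold tm
      simp
    · have hr : 0 < (n : ℝ) / (k : ℝ) := by
        have h2 : (0 : ℝ) < n := by exact_mod_cast hn
        have h3 : (0 : ℝ) < k := by exact_mod_cast hk
        positivity
      unfold tm H98.SZ.wj H98.SZ.rho
      rw [if_pos hr, win_eq (by linarith)]
      push_cast
      ring
  have h2 : H98.SZ.PRIN (H98.SZ.xx (fun u => (P u : ℂ)) (Real.log T)) (fun n => ((c n : ℝ) : ℂ)) (H98.SZ.wj j T) =
      ((∑ k ∈ Icc 1 (H82SZ.NT T), H82SZ.xk P T k / k * ∑' n : ℕ, tm T j c k n : ℝ) : ℂ) := by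
    unfold H98.SZ.PRIN
    rw [tsum_eq_sum (s := Icc 1 (H82SZ.NT T))]
    · rw [Complex.ofReal_sum]
      refine Finset.sum_congr rfl fun k hk => ?_
      rw [mem_Icc] at hk
      rw [h1 k hk.1, Complex.ofReal_mul]
      congr 1
      unfold H98.SZ.xx H82SZ.xk
      simp
    · intro k hk
      rw [mem_Icc, not_and_or, not_le, not_le] at hk
      rcases hk with hk | hk
      · have : k = 0 := by omega
        subst this
        simp
      · have h3 : T ≤ k := ((Nat.floor_lt hT0.le).1 hk).le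
        have h4 : θ ≤ Real.log k / Real.log T := by
          rw [le_div_iff₀ hL]
          have h5 := Real.log_le_log hT0 h3
          nlinarith
        have h6 : H98.SZ.xx (fun u => (P u : ℂ)) (Real.log T) k = 0 := by
          unfold H98.SZ.xx
          simp only
          rw [hP.zero _ h4]
          simp
        rw [h6]
        simp
  rw [h2, Complex.ofReal_re]
  have h3 : H82SZ.Prj P T j c = ∑ k ∈ Icc 1 (H82SZ.NT T), H82SZ.xk P T k / k *
      ∑ n ∈ Icc 1 (H82SZ.N0 T * k), tm T j c k n := rfl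
  rw [h3, ← Finset.sum_sub_distrib]
  refine (Finset.abs_sum_le_sum_abs _ _).trans ?_
  have h4 : ∀ k ∈ Icc 1 (H82SZ.NT T), |H82SZ.xk P T k / k * (∑' n : ℕ, tm T j c k n) -
      H82SZ.xk P T k / k * ∑ n ∈ Icc 1 (H82SZ.N0 T * k), tm T j c k n| ≤ X * (B / T * z2) := by
    intro k hk
    rw [mem_Icc] at hk
    have hk1 : (1 : ℝ) ≤ k := by exact_mod_cast hk.1
    have hkT : (k : ℝ) ≤ T := (Nat.le_floor_iff hT0.le).1 hk.2
    rw [← mul_sub, abs_mul]
    refine mul_le_mul ?_ (inner_eq hT hj hB hc hk.1 hkT) (abs_nonneg _) hX0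
    rw [abs_div, abs_of_pos (by linarith : (0 : ℝ) < k), div_le_iff₀ (by linarith)]
    have h5 : |H82SZ.xk P T k| ≤ X := by
      show |(ArithmeticFunction.moebius k : ℝ) * P (Real.log k / Real.log T)| ≤ X
      rw [abs_mul]
      have h6 : |(ArithmeticFunction.moebius k : ℝ)| ≤ 1 := by
        rw [← Int.cast_abs]
        exact_mod_cast ArithmeticFunction.abs_moebius_le_one
      calc _ ≤ 1 * X := mul_le_mul h6 (hX _) (abs_nonneg _) zero_le_one
        _ = X := one_mul X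
    nlinarith
  refine (Finset.sum_le_sum h4).trans ?_
  rw [Finset.sum_const, Nat.card_Icc, Nat.add_sub_cancel, nsmul_eq_mul]
  have h5 : ((H82SZ.NT T : ℕ) : ℝ) ≤ T := Nat.floor_le hT0.le
  have hz := z2_nonneg
  calc ((H82SZ.NT T : ℕ) : ℝ) * (X * (B / T * z2)) ≤ T * (X * (B / T * z2)) := by gcongr
    _ = X * (B * z2) := by field_simp

/-- glue: the limits of block M in the form of block K -/
theorem MLim_of_PRIN {θ : ℝ} (hθ : θ ≤ 1) {P : ℝ → ℝ} (hP : H82SZ.Adm θ P) {c : ℝ → ArithmeticFunction ℝ} {B T1 : ℝ}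
    (hc : ∀ T, T1 ≤ T → ∀ n : ℕ, |c T n| ≤ B * (n : ℝ) ^ 10) {j m h : ℕ} (hj : j ≤ 2) (hh : h = m + j)
    {F : ℝ → ℕ → ℂ} {W : ℝ → ℝ → ℂ}
    (hF : ∀ T, T1 ≤ T → ∀ n, F T n = ((c T n : ℝ) : ℂ) / (Real.log T : ℂ) ^ m)
    (hW : ∀ T, T1 ≤ T → ∀ r, W T r = H98.SZ.wj j T r / (Real.log T : ℂ) ^ j) {v : ℝ}
    (hlim : Tendsto (fun T => H98.SZ.PRIN (H98.SZ.xx (fun u => (P u : ℂ)) (Real.log T)) (F T) (W T) / (H98.SZ.om T : ℂ))
      atTop (𝓝 (v : ℂ))) : H82SZ.MLim P j h c v := by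
  obtain ⟨X, hX1, hX⟩ := Adm.bdd hP
  have hre := (Complex.continuous_re.tendsto _).comp hlim
  rw [Complex.ofReal_re] at hre
  -- the difference
  have h0 : Tendsto (fun T => H82SZ.Prj P T j (c T) / (H82SZ.om T * Real.log T ^ h) -
      (H98.SZ.PRIN (H98.SZ.xx (fun u => (P u : ℂ)) (Real.log T)) (F T) (W T) / (H98.SZ.om T : ℂ)).re) atTop (𝓝 0) := by
    have h2 := (H82SZ.tendsto_err 0).const_mul (X * (|B| * z2))
    rw [mul_zero] at h2
    rw [tendsto_zero_iff_abs_tendsto_zero]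
    refine squeeze_zero' (Eventually.of_forall fun T => abs_nonneg _) ?_ h2
    filter_upwards [eventually_ge_atTop T1, eventually_ge_atTop 3] with T hT hT3
    have hT0 : 0 < T := by linarith
    have hL : 1 ≤ Real.log T := by
      rw [Real.le_log_iff_exp_le hT0]
      have := Real.exp_one_lt_d9
      linarith
    have ho := H82SZ.om_pos (T := T) (by linarith)
    have hLC : (Real.log T : ℂ) ≠ 0 := by
      exact_mod_cast (by linarith : Real.log T ≠ 0)
    have e1 : H98.SZ.PRIN (H98.SZ.xx (fun u => (P u : ℂ)) (Real.log T)) (F T) (W T) =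
        H98.SZ.PRIN (H98.SZ.xx (fun u => (P u : ℂ)) (Real.log T)) (fun n => ((c T n : ℝ) : ℂ)) (H98.SZ.wj j T) /
          ((Real.log T ^ h : ℝ) : ℂ) := by
      unfold H98.SZ.PRIN
      rw [← tsum_div_const]
      refine tsum_congr fun k => ?_
      rw [mul_div_assoc, ← tsum_div_const]
      congr 1
      refine tsum_congr fun n => ?_
      rw [hF T hT, hW T hT, hh, pow_add]
      push_cast
      field_simp
    simp only [Function.comp_apply]
    rw [e1, om_eq, div_div, ← Complex.ofReal_mul, Complex.div_ofReal_re, mul_comm (H82SZ.om T), ← sub_div, abs_div]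
    have hc' : ∀ n : ℕ, |c T n| ≤ |B| * (n : ℝ) ^ 10 := fun n =>
      (hc T hT n).trans (mul_le_mul_of_nonneg_right (le_abs_self B) (by positivity))
    have h3 := prin_eq hθ hP hX hT3 hj (abs_nonneg B) hc'
    have h4 : (1 : ℝ) ≤ Real.log T ^ h := one_le_pow₀ hL
    rw [abs_of_pos (by positivity : 0 < Real.log T ^ h * H82SZ.om T)]
    have h5 : 1 ≤ T / Real.log T ^ (0 + 1) := by
      rw [zero_add, pow_one, le_div_iff₀ (by linarith), one_mul]
      exact (Real.log_le_sub_one_of_pos hT0).trans (by linarith)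
    have hz := z2_nonneg
    calc |H82SZ.Prj P T j (c T) - _| / (Real.log T ^ h * H82SZ.om T) ≤ (X * (|B| * z2)) / (1 * H82SZ.om T) := by
          rw [abs_sub_comm]
          have h6 : 0 ≤ X * (|B| * z2) := by positivity
          gcongr
      _ ≤ (X * (|B| * z2)) * (T / Real.log T ^ (0 + 1)) / (1 * H82SZ.om T) := by
          have h6 : 0 ≤ X * (|B| * z2) := by positivity
          exact div_le_div_of_nonneg_right (le_mul_of_one_le_right h6 h5) (by positivity)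
      _ = _ := by ring
  have h7 := h0.add hre
  rw [zero_add] at h7
  refine h7.congr fun T => ?_
  simp only [Function.comp_apply]
  ring

end H69SZ
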